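import Pool.Agent.Y382.MX.Stm

set_option autoImplicit false

/-! MX-FIN: the mixed identities of a finite group in finitely many variables have a finite
basis. -/

namespace Pool.Agent.Y465.MX

open Pool.Agent.Helper60.Mixed Pool.Agent.Y382.MX

section

variable {G : Type} [Group G] (n : ℕ)

/-- extension of an assignment by `1` -/
def ext1 (ρ : Fin n → G) (i : ℕ) : G := if h : i < n then ρ ⟨i, h⟩ else 1

/-- the function given by a term -/
def fn (t : MTerm G) : (Fin n → G) → G := fun ρ => t.eval (star G) (ext1 n ρ)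

open Classical in
/-- a representative of a function -/
noncomputable def rp (f : (Fin n → G) → G) : MTerm G :=
  if h : ∃ t : MTerm G, t.bound ≤ n ∧ fn n t = f then h.choose else .one

theorem rp_bound (f : (Fin n → G) → G) : (rp n f).bound ≤ n := by
  unfold rp
  split_ifs with h
  · exact h.choose_spec.1
  · exact Nat.zero_le n

theorem fn_rp {t : MTerm G} (ht : t.bound ≤ n) : fn n (rp n (fn n t)) = fn n t := by
  have h : ∃ t' : MTerm G, t'.bound ≤ n ∧ fn n t' = fn n t := ⟨t, ht, rfl⟩
  unfold rp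
  rw [dif_pos h]
  exact h.choose_spec.2

theorem eval_fn {t : MTerm G} (ht : t.bound ≤ n) (ρ : ℕ → G) :
    t.eval (star G) ρ = fn n t (fun i => ρ i) := by
  unfold fn
  refine MTerm.eval_congr _ _ _ t fun i hi => ?_
  have hi' : i < n := lt_of_lt_of_le hi ht
  rw [ext1, dif_pos hi']

theorem fn_eq {e : MTerm G × MTerm G} (he : e ∈ mixedIdentities G) : fn n e.1 = fn n e.2 := by
  funext ρ
  exact he (ext1 n ρ)

theorem holds_rp {t : MTerm G} (ht : t.bound ≤ n) : (t, rp n (fn n t)) ∈ mixedIdentities G := by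
  intro ρ
  change t.eval (star G) ρ = (rp n (fn n t)).eval (star G) ρ
  rw [eval_fn n ht, eval_fn n (rp_bound n _), fn_rp n ht]

theorem fn_mul (s t s' t' : MTerm G) (hs : fn n s = fn n s') (ht : fn n t = fn n t') :
    fn n (.mul s t) = fn n (.mul s' t') := by
  funext ρ
  exact congrArg₂ (fun a b : G => a * b) (congrFun hs ρ) (congrFun ht ρ)

theorem fn_inv (s s' : MTerm G) (hs : fn n s = fn n s') :
    fn n (.inv s) = fn n (.inv s') := by
  funext ρ
  exact congrArg (fun a : G => a⁻¹) (congrFun hs ρ)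

/-- the basis -/
noncomputable def Bs : Set (MTerm G × MTerm G) :=
  Set.range (fun i : Fin n => ((.var i : MTerm G), rp n (fn n (.var i)))) ∪
  Set.range (fun g : G => ((.const g : MTerm G), rp n (fn n (.const g)))) ∪
  {((.one : MTerm G), rp n (fn n .one))} ∪
  Set.range (fun q : ((Fin n → G) → G) × ((Fin n → G) → G) =>
    ((.mul (rp n q.1) (rp n q.2) : MTerm G), rp n (fn n (.mul (rp n q.1) (rp n q.2))))) ∪
  Set.range (fun f : (Fin n → G) → G =>
    ((.inv (rp n f) : MTerm G), rp n (fn n (.inv (rp n f)))))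

theorem Bs_finite [Finite G] : (Bs (G := G) n).Finite := by
  unfold Bs
  exact ((((Set.finite_range _).union (Set.finite_range _)).union (Set.finite_singleton _)).union
    (Set.finite_range _)).union (Set.finite_range _)

theorem Bs_sub : Bs (G := G) n ⊆ mixedIdentities G := by
  intro e he
  unfold Bs at he
  rcases he with (((⟨i, rfl⟩ | ⟨g, rfl⟩) | rfl) | ⟨q, rfl⟩) | ⟨f, rfl⟩
  · exact holds_rp n i.2
  · exact holds_rp n (Nat.zero_le n)
  · exact holds_rp n (Nat.zero_le n)
  · exact holds_rp n (max_le (rp_bound n _) (rp_bound n _))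
  · exact holds_rp n (rp_bound n f)

theorem derives_rp (t : MTerm G) (ht : t.bound ≤ n) : Derives (Bs n) t (rp n (fn n t)) := by
  induction t with
  | var i =>
    exact Derives.ax (Or.inl (Or.inl (Or.inl (Or.inl ⟨⟨i, ht⟩, rfl⟩))))
  | const g => exact Derives.ax (Or.inl (Or.inl (Or.inl (Or.inr ⟨g, rfl⟩))))
  | one => exact Derives.ax (Or.inl (Or.inl (Or.inr rfl)))
  | mul s t ihs iht =>
    have hs : s.bound ≤ n := (le_max_left _ _).trans ht
    have ht' : t.bound ≤ n := (le_max_right _ _).trans ht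
    have h1 := Derives.mul (ihs hs) (iht ht')
    have h2 : Derives (Bs n) (.mul (rp n (fn n s)) (rp n (fn n t)))
        (rp n (fn n (.mul (rp n (fn n s)) (rp n (fn n t))))) :=
      Derives.ax (Or.inl (Or.inr ⟨(fn n s, fn n t), rfl⟩))
    rw [fn_mul n _ _ _ _ (fn_rp n hs) (fn_rp n ht')] at h2
    exact h1.trans h2
  | inv s ih =>
    have hs : s.bound ≤ n := ht
    have h1 := Derives.inv (ih hs)
    have h2 : Derives (Bs n) (.inv (rp n (fn n s))) (rp n (fn n (.inv (rp n (fn n s))))) :=
      Derives.ax (Or.inr ⟨fn n s, rfl⟩)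
    rw [fn_inv n _ _ (fn_rp n hs)] at h2
    exact h1.trans h2

end

theorem t_FIN : S_FIN := by
  intro G _ _ n
  refine ⟨Bs n, Bs_finite n, Bs_sub n, fun e he h1 h2 => ?_⟩
  have h3 := derives_rp n e.1 h1
  rw [fn_eq n he] at h3
  exact h3.trans (derives_rp n e.2 h2).symm

end Pool.Agent.Y465.MX
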